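import Pool.Agent.R838.KS.Stm
import Pool.Agent.TH286.CR.GE

/-!
# Project KS, package GEC: the embedding of `E_0`, continuous version (helper780)

The construction is that of `Pool.Agent.TH286.CR.GEaux.exists_embedding`.
-/

set_option autoImplicit false

open Set MeasureTheory Filter Topology

namespace Pool.Agent.U780.KS.GEC

open Pool.Agent.TH286.CR.GEaux

section scheme

variable {X : Type} [MetricSpace X] {E : X → X → Prop} {x0 : X}

theorem exists_embedding_cont [CompleteSpace X]
    (hE : Equivalence E) (s : ℕ → X → X) (hs : ∀ n, Continuous (s n)) (hs0 : ∀ x, s 0 x = x)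
    (hinv : ∀ n x, s n (s n x) = x) (hsE : ∀ x y, E x y ↔ ∃ n, s n x = y)
    (hrec : ∀ O : Set X, IsOpen O → x0 ∈ O → ∃ k, s k x0 ∈ O ∧ s k x0 ≠ x0) :
    ∃ j : (ℕ → Bool) → X, Continuous j ∧ Function.Injective j ∧
      ∀ a b, E (j a) (j b) ↔ ∃ N, ∀ n, N ≤ n → a n = b n := by
  classical
  choose H hH1 C' hC1 hC2 hC3 hC4 hC5 hC6 using fun (n : ℕ) (S : St E x0) =>
    exists_step hE s hs hinv hsE hrec n S ((1 / 2) ^ n) (by positivity)
  let nxt : ℕ → St E x0 → St E x0 := fun n S =>
    { G := S.G ∪ (fun g => (H n S).trans g) '' S.G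
      fin := S.fin.union (S.fin.image _)
      inside := by
        rintro g (hg | ⟨g, hg, rfl⟩) x
        · exact S.inside g hg x
        · exact hE.trans (hH1 n S x) (S.inside g hg _)
      C := C' n S
      nh := hC1 n S
      cl := hC2 n S }
  let S0 : St E x0 :=
    { G := {Homeomorph.refl X}
      fin := Set.finite_singleton _
      inside := by
        rintro g rfl x
        exact hE.refl x
      C := univ
      nh := univ_mem
      cl := isClosed_univ }
  let S : ℕ → St E x0 := fun n => Nat.rec S0 (fun n S => nxt n S) n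
  have hS : ∀ n, S (n + 1) = nxt n (S n) := fun n => rfl
  let h : ℕ → (X ≃ₜ X) := fun n => H n (S n)
  let C : ℕ → Set X := fun n => (S n).C
  have hCn : ∀ n, C n ∈ 𝓝 x0 := fun n => (S n).nh
  have hCcl : ∀ n, IsClosed (C n) := fun n => (S n).cl
  have hCs : ∀ n, C (n + 1) ⊆ C n := fun n => hC3 n (S n)
  have hhC : ∀ n, ∀ x ∈ C (n + 1), h n x ∈ C n := fun n => hC4 n (S n)
  have hhE : ∀ n x, E x (h n x) := fun n => hH1 n (S n)
  have hdist : ∀ n, ∀ g ∈ (S n).G, ∀ x ∈ C (n + 1), ∀ y ∈ C (n + 1),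
      dist (g x) (g y) ≤ (1 / 2) ^ n ∧ dist (g (h n x)) (g (h n y)) ≤ (1 / 2) ^ n :=
    fun n => hC5 n (S n)
  have hsep : ∀ n, ∀ g ∈ (S n).G, ∀ g' ∈ (S n).G, ∀ i ≤ n, ∀ x ∈ C (n + 1), ∀ y ∈ C (n + 1),
      s i (g x) ≠ g' (h n y) := fun n => hC6 n (S n)
  -- the group elements attached to words
  let G : (ℕ → Bool) → ℕ → (X ≃ₜ X) := fun a n =>
    Nat.rec (Homeomorph.refl X) (fun n g => if a n then (h n).trans g else g) n
  have hG0 : ∀ a, G a 0 = Homeomorph.refl X := fun a => rfl
  have hGs : ∀ a n, G a (n + 1) = if a n then (h n).trans (G a n) else G a n := fun a n => rfl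
  have hGmem : ∀ a n, G a n ∈ (S n).G := by
    intro a n
    induction n with
    | zero => exact Set.mem_singleton _
    | succ n ih =>
      rw [hGs, hS]
      by_cases ha : a n = true
      · rw [if_pos ha]
        exact Or.inr ⟨_, ih, rfl⟩
      · rw [if_neg ha]
        exact Or.inl ih
  have hGE : ∀ a n x, E x (G a n x) := fun a n => (S n).inside _ (hGmem a n)
  -- nestedness
  have hnest : ∀ a n x, x ∈ C (n + 1) → G a (n + 1) x ∈ G a n '' C n := by
    intro a n x hx
    rw [hGs]
    by_cases ha : a n = true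
    · rw [if_pos ha]
      exact ⟨h n x, hhC n x hx, rfl⟩
    · rw [if_neg ha]
      exact ⟨x, hCs n hx, rfl⟩
  have hnest' : ∀ a n, G a (n + 1) '' C (n + 1) ⊆ G a n '' C n := by
    rintro a n _ ⟨x, hx, rfl⟩
    exact hnest a n x hx
  have hanti : ∀ a, Antitone fun n => G a n '' C n := fun a => antitone_nat_of_succ_le (hnest' a)
  have hx0C : ∀ n, x0 ∈ C n := fun n => mem_of_mem_nhds (hCn n)
  have hmem : ∀ a n m, n ≤ m → G a m x0 ∈ G a n '' C n := fun a n m hnm =>
    hanti a hnm ⟨x0, hx0C m, rfl⟩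
  have hdiam : ∀ a n, ∀ y ∈ G a (n + 1) '' C (n + 1), ∀ y' ∈ G a (n + 1) '' C (n + 1),
      dist y y' ≤ (1 / 2) ^ n := by
    rintro a n _ ⟨x, hx, rfl⟩ _ ⟨x', hx', rfl⟩
    have h1 := hdist n (G a n) (hGmem a n) x hx x' hx'
    rw [hGs]
    by_cases ha : a n = true
    · rw [if_pos ha]
      exact h1.2
    · rw [if_neg ha]
      exact h1.1
  have hlim : ∀ a, ∃ y, Tendsto (fun n => G a n x0) atTop (𝓝 y) := by
    intro a
    apply cauchySeq_tendsto_of_complete
    rw [Metric.cauchySeq_iff']
    intro ε hε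
    obtain ⟨n, hn⟩ := exists_pow_lt_of_lt_one hε (by norm_num : (1 / 2 : ℝ) < 1)
    refine ⟨n + 1, fun m hm => ?_⟩
    exact (hdiam a n _ (hmem a (n + 1) m hm) _ (hmem a (n + 1) (n + 1) le_rfl)).trans_lt hn
  choose j hj using hlim
  have hjmem : ∀ a n, j a ∈ G a n '' C n := by
    intro a n
    have hcl : IsClosed (G a n '' C n) := (G a n).isClosed_image.2 (hCcl n)
    refine hcl.mem_of_tendsto (hj a) ?_
    filter_upwards [eventually_ge_atTop n] with m hm
    exact hmem a n m hm
  have hkey : ∀ a b i, s i (j a) = j b → ∀ n, i ≤ n → a n = b n := by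
    have aux : ∀ a b i, s i (j a) = j b → ∀ n, i ≤ n → a n = false → b n = true → False := by
      intro a b i hab n hin ha hb
      obtain ⟨x, hx, hxa⟩ := hjmem a (n + 1)
      obtain ⟨y, hy, hyb⟩ := hjmem b (n + 1)
      rw [hGs, if_neg (by rw [ha]; simp)] at hxa
      rw [hGs, if_pos hb] at hyb
      refine hsep n (G a n) (hGmem a n) (G b n) (hGmem b n) i hin x hx y hy ?_
      rw [hxa, hab, ← hyb]
      rfl
    intro a b i hab n hin
    have hba : s i (j b) = j a := by rw [← hab, hinv]
    cases ha : a n with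
    | false =>
      cases hb : b n with
      | false => rfl
      | true => exact (aux a b i hab n hin ha hb).elim
    | true =>
      cases hb : b n with
      | false => exact (aux b a i hba n hin hb ha).elim
      | true => rfl
  refine ⟨j, ?_, ?_, ?_⟩
  · -- continuity
    have hGG : ∀ a b : ℕ → Bool, ∀ n, (∀ i < n, b i = a i) → G b n = G a n := by
      intro a b n
      induction n with
      | zero => intro _; rfl
      | succ n ih =>
        intro hab
        rw [hGs, hGs, ih fun i hi => hab i (by omega), hab n (by omega)]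
    rw [continuous_iff_continuousAt]
    intro a
    rw [Metric.continuousAt_iff']
    intro ε hε
    obtain ⟨n, hn⟩ := exists_pow_lt_of_lt_one hε (by norm_num : (1 / 2 : ℝ) < 1)
    filter_upwards [(PiNat.isOpen_cylinder (fun _ => Bool) a (n + 1)).mem_nhds
      (PiNat.self_mem_cylinder a (n + 1))] with b hb
    have h1 : j b ∈ G a (n + 1) '' C (n + 1) := by
      rw [← hGG a b (n + 1) hb]
      exact hjmem b (n + 1)
    exact (hdiam a n _ h1 _ (hjmem a (n + 1))).trans_lt hn
  · intro a b hab
    funext n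
    exact hkey a b 0 (by rw [hs0, hab]) n (Nat.zero_le n)
  · intro a b
    constructor
    · intro hab
      obtain ⟨i, hi⟩ := (hsE _ _).1 hab
      exact ⟨i, fun n hn => hkey a b i hi n hn⟩
    · rintro ⟨N, hN⟩
      have h1 : ∀ n, N ≤ n → ∀ x, G b n x = G b N ((G a N).symm (G a n x)) := by
        intro n hn
        induction n, hn using Nat.le_induction with
        | base => intro x; rw [Homeomorph.symm_apply_apply]
        | succ n hn ih =>
          intro x
          rw [hGs, hGs, ← hN n hn]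
          by_cases ha : a n = true
          · rw [if_pos ha, if_pos ha]
            exact ih (h n x)
          · rw [if_neg ha, if_neg ha]
            exact ih x
      have h2 : Tendsto (fun n => G b n x0) atTop (𝓝 (G b N ((G a N).symm (j a)))) := by
        have h3 : Tendsto (fun n => G b N ((G a N).symm (G a n x0))) atTop
            (𝓝 (G b N ((G a N).symm (j a)))) :=
          (((G b N).continuous.comp (G a N).symm.continuous).tendsto (j a)).comp (hj a)
        refine h3.congr' ?_
        filter_upwards [eventually_ge_atTop N] with n hn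
        exact (h1 n hn x0).symm
      have h3 : j b = G b N ((G a N).symm (j a)) := tendsto_nhds_unique (hj b) h2
      rw [h3]
      refine hE.trans (hE.symm ?_) (hGE b N _)
      have h4 := hGE a N ((G a N).symm (j a))
      rwa [Homeomorph.apply_symm_apply] at h4

end scheme

/-- The point `x` and its cylinder of length `k` are in `Q`, and `k` is least. -/
def Piece (Q : Set (ℕ → Bool)) (k : ℕ) : Set (ℕ → Bool) :=
  {x | (∀ y, (∀ n < k, y n = x n) → y ∈ Q) ∧ ∀ l < k, ¬ ∀ y, (∀ n < l, y n = x n) → y ∈ Q}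

lemma piece_sub {Q : Set (ℕ → Bool)} {k : ℕ} {x : ℕ → Bool} (h : x ∈ Piece Q k) : x ∈ Q :=
  h.1 x fun _ _ => rfl

lemma piece_clopen (Q : Set (ℕ → Bool)) (k : ℕ) : IsClopen (Piece Q k) := by
  have h1 : Piece Q k = (fun (x : ℕ → Bool) (n : Fin k) => x n) ⁻¹'
      ((fun (x : ℕ → Bool) (n : Fin k) => x n) '' Piece Q k) := by
    ext x
    refine ⟨fun h => ⟨x, h, rfl⟩, ?_⟩
    rintro ⟨x', hx', hxx⟩
    have h2 : ∀ n < k, x' n = x n := fun n hn => congrFun hxx ⟨n, hn⟩
    refine ⟨fun y hy => hx'.1 y fun n hn => (hy n hn).trans (h2 n hn).symm, fun l hl hcon => ?_⟩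
    exact hx'.2 l hl fun y hy => hcon y fun n hn => (hy n hn).trans (h2 n (hn.trans hl))
  rw [h1]
  exact (isClopen_discrete _).preimage (continuous_pi fun n => continuous_apply _)

lemma piece_unique {Q : Set (ℕ → Bool)} {k k' : ℕ} {x : ℕ → Bool} (h : x ∈ Piece Q k)
    (h' : x ∈ Piece Q k') : k = k' := by
  rcases lt_trichotomy k k' with hk | hk | hk
  · exact absurd h.1 (h'.2 k hk)
  · exact hk
  · exact absurd h'.1 (h.2 k' hk)

lemma piece_exists {Q : Set (ℕ → Bool)} (hQ : IsOpen Q) {x : ℕ → Bool} (hx : x ∈ Q) :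
    ∃ k, x ∈ Piece Q k := by
  classical
  have h1 : ∃ k, ∀ y, (∀ n < k, y n = x n) → y ∈ Q := by
    obtain ⟨u, ⟨z, n, rfl⟩, hxu, hu⟩ :=
      (PiNat.isTopologicalBasis_cylinders (fun _ => Bool)).exists_subset_of_mem_open hx hQ
    refine ⟨n, fun y hy => hu ?_⟩
    rw [← PiNat.mem_cylinder_iff_eq.1 hxu]
    exact hy
  exact ⟨Nat.find h1, Nat.find_spec h1, fun l hl => Nat.find_min h1 hl⟩

theorem t_GEC : Pool.Agent.R838.KS.S_GEC := by
  classical
  intro X _ _ s hs hinv E hE hsE hns
  -- add the identity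
  let s' : ℕ → X → X := fun n => Nat.casesOn n id s
  have hs'0 : ∀ x, s' 0 x = x := fun x => rfl
  have hs' : ∀ n, Measurable (s' n) := by
    intro n
    cases n with
    | zero => exact measurable_id
    | succ n => exact hs n
  have hinv' : ∀ n x, s' n (s' n x) = x := by
    intro n x
    cases n with
    | zero => rfl
    | succ n => exact hinv n x
  have hsE' : ∀ x y, E x y ↔ ∃ n, s' n x = y := by
    intro x y
    constructor
    · intro h
      obtain ⟨n, hn⟩ := (hsE x y).1 h
      exact ⟨n + 1, hn⟩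
    · rintro ⟨n, hn⟩
      cases n with
      | zero =>
        have : x = y := hn
        rw [this]
        exact hE.refl y
      | succ n => exact (hsE x y).2 ⟨n, hn⟩
  let _ := upgradeStandardBorel X
  obtain ⟨t, ht, hpol, hbor, hcont, -⟩ := Pool.Agent.H139R3.MF.exists_topology (X := X)
    (H := Unit) s' hs' (fun _ => ()) measurable_const
  clear_value s'
  let _ : TopologicalSpace X := t
  have := hpol
  have := hbor
  let _ := TopologicalSpace.upgradeIsCompletelyMetrizable X
  by_cases hrec : ∃ x0 : X, ∀ O : Set X, IsOpen O → x0 ∈ O → ∃ k, s' k x0 ∈ O ∧ s' k x0 ≠ x0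
  swap
  · exfalso
    apply hns
    push Not at hrec
    obtain ⟨g, hg, hgE, hgE'⟩ := exists_selector s' hs' E hE hsE' hrec
    refine ⟨{x | g x = x}, measurableSet_eq_fun hg measurable_id, fun x => ⟨g x, ?_, ?_⟩⟩
    · exact ⟨(hgE' x (g x) (hgE x)).symm, hgE x⟩
    · rintro y ⟨hy, hxy⟩
      rw [hgE' x y hxy]
      exact (show g y = y from hy).symm
  obtain ⟨x0, hx0⟩ := hrec
  obtain ⟨j, hjc, hji, hjE⟩ := exists_embedding_cont hE s' hcont hs'0 hinv' hsE' hx0
  have hEs : ∀ i x, E x (s' i x) := fun i x => (hsE' _ _).2 ⟨i, rfl⟩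
  let Q : ℕ → Set (ℕ → Bool) := fun i => {x | ∀ k < i, ∀ y, s' k (j y) ≠ s' i (j x)}
  have hQ : ∀ i, IsOpen (Q i) := by
    intro i
    have h1 : Q i = ⋂ k ∈ Finset.range i, ((fun x => s' i (j x)) ⁻¹' (range fun y => s' k (j y)))ᶜ := by
      ext x
      simp only [Q, mem_iInter, Finset.mem_range, mem_compl_iff, mem_preimage, mem_range,
        not_exists, Set.mem_ofPred_eq]
    rw [h1]
    refine isOpen_biInter_finset fun k _ => ?_
    exact ((isCompact_range ((hcont k).comp hjc)).isClosed.preimage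
      ((hcont i).comp hjc)).isOpen_compl
  have hQ0 : Q 0 = univ := by
    ext x
    simp [Q]
  refine ⟨fun a => Piece (Q a.unpair.1) a.unpair.2, fun a x => s' a.unpair.1 (j x), ?_,
    fun a => piece_clopen _ _, fun a => ((hcont _).comp hjc).measurable, ?_, ?_, ?_⟩
  · ext x
    simp only [Nat.unpair_zero, mem_univ, iff_true]
    change x ∈ Piece (Q 0) 0
    rw [hQ0]
    exact ⟨fun _ _ => mem_univ _, fun l hl => absurd hl (Nat.not_lt_zero _)⟩
  · intro a b x y hx hy hxy
    have h1 : a.unpair.1 = b.unpair.1 := by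
      rcases lt_trichotomy a.unpair.1 b.unpair.1 with h | h | h
      · exact absurd hxy (piece_sub hy _ h x)
      · exact h
      · exact absurd hxy.symm (piece_sub hx _ h y)
    have h2 : x = y := by
      apply hji
      have h3 := congrArg (s' a.unpair.1) hxy
      simp only [h1, hinv'] at h3
      exact h3
    subst h2
    have hx1 : x ∈ Piece (Q a.unpair.1) a.unpair.2 := hx
    rw [h1] at hx1
    have h3 := piece_unique hx1 hy
    refine ⟨?_, rfl⟩
    rw [← Nat.pair_unpair a, ← Nat.pair_unpair b, h1, h3]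
  · intro a b x y
    rw [← hjE]
    constructor
    · intro h
      exact hE.trans (hEs _ _) (hE.trans h (hE.symm (hEs _ _)))
    · intro h
      exact hE.trans (hE.symm (hEs _ _)) (hE.trans h (hEs _ _))
  · intro a x z hx hz
    have h1 : ∃ i, ∃ y, s' i (j y) = z := by
      obtain ⟨m, hm⟩ := (hsE' _ _).1 (hE.trans (hEs a.unpair.1 (j x)) hz)
      exact ⟨m, x, hm⟩
    obtain ⟨y, hy⟩ := Nat.find_spec h1
    have h2 : y ∈ Q (Nat.find h1) := by
      intro k hk w hw
      exact Nat.find_min h1 hk ⟨w, hw.trans hy⟩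
    obtain ⟨k, hk⟩ := piece_exists (hQ _) h2
    refine ⟨Nat.pair (Nat.find h1) k, y, ?_, ?_⟩
    · simpa only [Nat.unpair_pair] using hk
    · simpa only [Nat.unpair_pair] using hy

end Pool.Agent.U780.KS.GEC
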